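import Mathlib
import Pool.Agent.TH942.Par

/-!
# The Lattès map of degree `4` and the points of the twists of an elliptic curve
-/

set_option autoImplicit false

namespace Pool.Agent.Q103.LTS

open WeierstrassCurve Height
open Pool.Agent.TH942

section ring

variable {R : Type} [CommRing R]

/-- The Lattès map `x(P) ↦ x(2 P)` of `y² = x³ + a x + b`, of degree `4`, in homogeneous
coordinates. -/
def lat (a b : R) (v : R × R) : R × R :=
  (v.1 ^ 4 - 2 * a * v.1 ^ 2 * v.2 ^ 2 - 8 * b * v.1 * v.2 ^ 3 + a ^ 2 * v.2 ^ 4,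
    4 * v.2 * (v.1 ^ 3 + a * v.1 * v.2 ^ 2 + b * v.2 ^ 3))

/-- the vectors are proportional: they give the same point of the projective line if they are
not zero -/
def Par (v w : R × R) : Prop := v.1 * w.2 = v.2 * w.1

end ring

variable {L : Type} [Field L]

/-- `v ≠ 0` gives the point `x(P) / D` of the projective line; `P` is a point of the quadratic twist
`y² = x³ + D² a x + D³ b` of `y² = x³ + a x + b` -/
def Over {a b : L} (D : L) (P : SPt (a * D ^ 2) (b * D ^ 3)) (v : L × L) : Prop :=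
  ∃ c : L, c ≠ 0 ∧ v = (c * P.xRep 0, c * D * P.xRep 1)

lemma lat_smul (a b c : L) (v : L × L) :
    lat a b (c * v.1, c * v.2) = (c ^ 4 * (lat a b v).1, c ^ 4 * (lat a b v).2) := by
  unfold lat
  ext
  · simp only
    ring
  · simp only
    ring

lemma twist_disc {a b D : L} (hD : D ≠ 0) (h : 4 * a ^ 3 + 27 * b ^ 2 ≠ 0) :
    4 * (a * D ^ 2) ^ 3 + 27 * (b * D ^ 3) ^ 2 ≠ 0 := by
  have : 4 * (a * D ^ 2) ^ 3 + 27 * (b * D ^ 3) ^ 2 = D ^ 6 * (4 * a ^ 3 + 27 * b ^ 2) := by ring
  rw [this]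
  exact mul_ne_zero (pow_ne_zero _ hD) h

variable [CharZero L] [DecidableEq L]

/-- the Lattès map and doubling -/
lemma over_lat {a b D : L} (hD : D ≠ 0) (h : 4 * a ^ 3 + 27 * b ^ 2 ≠ 0)
    (P : SPt (a * D ^ 2) (b * D ^ 3)) {v : L × L} (hv : Over D P v) :
    Over D (P + P) (lat a b v) := by
  obtain ⟨c, hc, rfl⟩ := hv
  have hDt := twist_disc hD h
  match P with
  | 0 =>
    refine ⟨c ^ 4, pow_ne_zero _ hc, ?_⟩
    rw [add_zero, Affine.Point.xRep_zero]
    unfold lat
    ext <;> simp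
  | .some x y hn =>
    have q := sw_eqn.mp hn.1
    by_cases hy : y = 0
    · subst hy
      have hneg : (Affine.Point.some x 0 hn : SPt (a * D ^ 2) (b * D ^ 3)) +
          Affine.Point.some x 0 hn = 0 := by
        apply Affine.Point.add_self_of_Y_eq
        simp [Affine.negY, sw]
      rw [hneg]
      unfold Over
      rw [Affine.Point.xRep_zero, Affine.Point.xRep_some]
      have hq : x ^ 3 + a * D ^ 2 * x + b * D ^ 3 = 0 := by rw [← q]; ring
      refine ⟨c ^ 4 * (3 * x ^ 2 + a * D ^ 2) ^ 2, ?_, ?_⟩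
      · apply mul_ne_zero (pow_ne_zero _ hc)
        apply pow_ne_zero
        intro h0
        apply hDt
        have h1 : b * D ^ 3 = -x ^ 3 - a * D ^ 2 * x := by linear_combination hq
        have h2 : a * D ^ 2 = -3 * x ^ 2 := by linear_combination h0
        rw [h1, h2]
        ring
      · unfold lat
        ext
        · simp
          linear_combination (-8 * x) * c ^ 4 * hq
        · simp
          right
          linear_combination (c ^ 3) * hq
    · have hd := sxRep_double hn hy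
      unfold Over
      rw [hd, Affine.Point.xRep_some]
      refine ⟨c ^ 4 * (4 * y ^ 2), mul_ne_zero (pow_ne_zero _ hc)
        (mul_ne_zero (by norm_num) (pow_ne_zero _ hy)), ?_⟩
      unfold lat
      ext
      · simp
        field_simp
      · simp
        linear_combination (-4 * D * c ^ 4) * q

lemma over_iter {a b D : L} (hD : D ≠ 0) (h : 4 * a ^ 3 + 27 * b ^ 2 ≠ 0)
    (P : SPt (a * D ^ 2) (b * D ^ 3)) {v : L × L} (hv : Over D P v) (i : ℕ) :
    Over D ((2 ^ i : ℕ) • P) ((lat a b)^[i] v) := by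
  induction i with
  | zero => simpa using hv
  | succ i ih =>
    rw [Function.iterate_succ_apply']
    have e : (2 ^ (i + 1) : ℕ) • P = (2 ^ i : ℕ) • P + (2 ^ i : ℕ) • P := by
      rw [← two_nsmul, ← mul_nsmul', ← pow_succ']
    rw [e]
    exact over_lat hD h _ ih

omit [CharZero L] [DecidableEq L] in
/-- points over the same point of the line are equal up to sign -/
lemma eq_of_par {a b D : L} (hD : D ≠ 0) {P Q : SPt (a * D ^ 2) (b * D ^ 3)} {v w : L × L}
    (hv : Over D P v) (hw : Over D Q w) (h : Par v w) : P = Q ∨ P = -Q := by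
  apply Affine.Point.eq_or_eq_neg_of_xRep_eq_xRep
  obtain ⟨c, hc, rfl⟩ := hv
  obtain ⟨c', hc', rfl⟩ := hw
  unfold Par at h
  simp only at h
  have h1 : P.xRep 0 * Q.xRep 1 = P.xRep 1 * Q.xRep 0 := by
    have h2 : c * c' * D ≠ 0 := mul_ne_zero (mul_ne_zero hc hc') hD
    apply mul_left_cancel₀ h2
    linear_combination h
  match P, Q with
  | 0, 0 => rfl
  | 0, .some x y h => simp at h1
  | .some x y h, 0 => simp at h1
  | .some x y h, .some x' y' h' =>
    simp only [Affine.Point.xRep_some, Matrix.cons_val_zero, Matrix.cons_val_one, mul_one,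
      one_mul] at h1
    rw [Affine.Point.xRep_some, Affine.Point.xRep_some, h1]

omit [CharZero L] [DecidableEq L] in
/-- conversely -/
lemma par_of_eq {a b D : L} {P Q : SPt (a * D ^ 2) (b * D ^ 3)} {v w : L × L}
    (hv : Over D P v) (hw : Over D Q w) (h : P = Q ∨ P = -Q) : Par v w := by
  obtain ⟨c, hc, rfl⟩ := hv
  obtain ⟨c', hc', rfl⟩ := hw
  have h1 : P.xRep = Q.xRep := by
    rcases h with h | h
    · rw [h]
    · rw [h, Affine.Point.xRep_neg]
  unfold Par
  rw [h1]
  ring

omit [DecidableEq L] in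
/-- every `x` is below a point of a twist -/
lemma exists_over {a b : L} (h : 4 * a ^ 3 + 27 * b ^ 2 ≠ 0) (x : L) :
    ∃ (D : L) (_ : D ≠ 0) (P : SPt (a * D ^ 2) (b * D ^ 3)), Over D P (x, 1) := by
  by_cases h0 : x ^ 3 + a * x + b = 0
  · refine ⟨1, one_ne_zero, ?_⟩
    have hn : (sw (a * 1 ^ 2) (b * 1 ^ 3)).toAffine.Nonsingular x 0 := by
      apply sw_nonsing (twist_disc one_ne_zero h)
      linear_combination (-1 : L) * h0
    refine ⟨Affine.Point.some x 0 hn, 1, one_ne_zero, ?_⟩
    rw [Affine.Point.xRep_some]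
    simp
  · obtain ⟨D, hD⟩ : ∃ D, D = x ^ 3 + a * x + b := ⟨_, rfl⟩
    rw [← hD] at h0
    refine ⟨D, h0, ?_⟩
    have hn : (sw (a * D ^ 2) (b * D ^ 3)).toAffine.Nonsingular (x * D) (D ^ 2) := by
      apply sw_nonsing (twist_disc h0 h)
      linear_combination (D ^ 3) * hD
    refine ⟨Affine.Point.some _ _ hn, D⁻¹, inv_ne_zero h0, ?_⟩
    rw [Affine.Point.xRep_some]
    ext
    · simp
      field_simp
    · simp
      field_simp

omit [CharZero L] in
/-- a preperiodic point is below a torsion point -/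
lemma tors_of_par {a b D : L} (hD : D ≠ 0) {P : SPt (a * D ^ 2) (b * D ^ 3)} {v w : L × L}
    {i j : ℕ} (hij : i ≠ j) (hv : Over D (i • P) v) (hw : Over D (j • P) w) (h : Par v w) :
    IsOfFinAddOrder P := by
  have hf : IsOfFinAddOrder P ↔ ∃ n : ℤ, n ≠ 0 ∧ n • P = 0 := by
    rw [isOfFinAddOrder_iff_nsmul_eq_zero]
    constructor
    · rintro ⟨n, hn, h⟩
      exact ⟨n, by omega, by rw [natCast_zsmul]; exact h⟩
    · rintro ⟨n, hn, h⟩
      refine ⟨n.natAbs, Int.natAbs_pos.mpr hn, ?_⟩
      rcases Int.natAbs_eq n with h1 | h1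
      · rw [h1, natCast_zsmul] at h
        exact h
      · rw [h1, neg_zsmul, natCast_zsmul, neg_eq_zero] at h
        exact h
  rw [hf]
  rcases eq_of_par hD hv hw h with h1 | h1
  · refine ⟨(i : ℤ) - j, by omega, ?_⟩
    rw [sub_zsmul, natCast_zsmul, natCast_zsmul, h1, add_neg_cancel]
  · refine ⟨(i : ℤ) + j, by omega, ?_⟩
    rw [add_zsmul, natCast_zsmul, natCast_zsmul, h1, neg_add_cancel]

end Pool.Agent.Q103.LTS
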