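import Mathlib
import Pool.Agent.Q103.LTS.Dyn

/-!
# The number of the abscissas of torsion points
-/

set_option autoImplicit false

namespace Pool.Agent.Q103.LTS

open Polynomial WeierstrassCurve
open Pool.Agent.TH942

variable {L : Type} [Field L]

/-- the polynomials of the iterates -/
noncomputable def itp (a b : L) (i : ℕ) : L[X] × L[X] := (lat (C a) (C b))^[i] (X, 1)

lemma itp_succ (a b : L) (i : ℕ) : itp a b (i + 1) = lat (C a) (C b) (itp a b i) := by
  unfold itp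
  rw [Function.iterate_succ_apply']

lemma eval_itp (a b x : L) (i : ℕ) :
    (lat a b)^[i] (x, 1) = ((itp a b i).1.eval x, (itp a b i).2.eval x) := by
  induction i with
  | zero => simp [itp]
  | succ i ih =>
    rw [Function.iterate_succ_apply', ih, itp_succ]
    unfold lat
    ext
    · simp
    · simp

lemma itp_deg (a b : L) (i : ℕ) : (itp a b i).1.natDegree ≤ 4 ^ i ∧
    (itp a b i).1.coeff (4 ^ i) = 1 ∧ (itp a b i).2.natDegree ≤ 4 ^ i - 1 ∧
    (itp a b i).2.coeff (4 ^ i - 1) = 4 ^ i := by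
  induction i with
  | zero => simp [itp]
  | succ i ih =>
    obtain ⟨h1, h2, h3, h4⟩ := ih
    obtain ⟨F, hF⟩ : ∃ F, F = (itp a b i).1 := ⟨_, rfl⟩
    obtain ⟨G, hG⟩ : ∃ G, G = (itp a b i).2 := ⟨_, rfl⟩
    obtain ⟨n, hn⟩ : ∃ n, n = 4 ^ i := ⟨_, rfl⟩
    have hn1 : 1 ≤ n := by rw [hn]; exact Nat.one_le_pow _ _ (by norm_num)
    have e1 : (itp a b (i + 1)).1 = F ^ 4 - 2 * C a * F ^ 2 * G ^ 2 - 8 * C b * F * G ^ 3 +
        C a ^ 2 * G ^ 4 := by rw [itp_succ, hF, hG]; rfl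
    have e2 : (itp a b (i + 1)).2 = 4 * G * (F ^ 3 + C a * F * G ^ 2 + C b * G ^ 3) := by
      rw [itp_succ, hF, hG]; rfl
    rw [e1, e2]
    rw [← hF, ← hn] at h1 h2
    rw [← hG, ← hn] at h3 h4
    have hc : (4 : L) ^ i = (4 : L) ^ i := rfl
    have hn4 : 4 ^ (i + 1) = 4 * n := by rw [hn, pow_succ']
    rw [hn4]
    -- degrees of the monomials
    have dF4 : (F ^ 4).natDegree ≤ 4 * n := natDegree_pow_le_of_le 4 h1
    have cF4 : (F ^ 4).coeff (4 * n) = 1 := by
      rw [coeff_pow_of_natDegree_le h1, h2, one_pow]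
    have d2 : (2 * C a * F ^ 2 * G ^ 2).natDegree ≤ 4 * n - 2 := by
      have k1 : (2 * C a : L[X]).natDegree ≤ 0 := by
        have : (2 * C a : L[X]) = C (2 * a) := by rw [C_mul]; rfl
        rw [this, natDegree_C]
      have k2 := natDegree_pow_le_of_le 2 h1
      have k3 := natDegree_pow_le_of_le 2 h3
      have k4 := natDegree_mul_le_of_le (natDegree_mul_le_of_le k1 k2) k3
      omega
    have d3 : (8 * C b * F * G ^ 3).natDegree ≤ 4 * n - 2 := by
      have k1 : (8 * C b : L[X]).natDegree ≤ 0 := by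
        have : (8 * C b : L[X]) = C (8 * b) := by rw [C_mul]; rfl
        rw [this, natDegree_C]
      have k3 := natDegree_pow_le_of_le 3 h3
      have k4 := natDegree_mul_le_of_le (natDegree_mul_le_of_le k1 h1) k3
      omega
    have d4 : (C a ^ 2 * G ^ 4).natDegree ≤ 4 * n - 2 := by
      have k1 : (C a ^ 2 : L[X]).natDegree ≤ 0 := by
        rw [← C_pow, natDegree_C]
      have k3 := natDegree_pow_le_of_le 4 h3
      have k4 := natDegree_mul_le_of_le k1 k3
      omega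
    have dF3 : (F ^ 3).natDegree ≤ 3 * n := natDegree_pow_le_of_le 3 h1
    have cF3 : (F ^ 3).coeff (3 * n) = 1 := by
      rw [coeff_pow_of_natDegree_le h1, h2, one_pow]
    have d5 : (C a * F * G ^ 2).natDegree ≤ 3 * n - 2 := by
      have k1 : (C a : L[X]).natDegree ≤ 0 := by rw [natDegree_C]
      have k3 := natDegree_pow_le_of_le 2 h3
      have k4 := natDegree_mul_le_of_le (natDegree_mul_le_of_le k1 h1) k3
      omega
    have d6 : (C b * G ^ 3).natDegree ≤ 3 * n - 2 := by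
      have k1 : (C b : L[X]).natDegree ≤ 0 := by rw [natDegree_C]
      have k3 := natDegree_pow_le_of_le 3 h3
      have k4 := natDegree_mul_le_of_le k1 k3
      omega
    obtain ⟨E, hE⟩ : ∃ E, E = F ^ 3 + C a * F * G ^ 2 + C b * G ^ 3 := ⟨_, rfl⟩
    have dE : E.natDegree ≤ 3 * n := by
      rw [hE]
      refine (natDegree_add_le_of_le (natDegree_add_le_of_le dF3 (d5.trans (?_ : _ ≤ 3 * n)))
        (d6.trans (?_ : _ ≤ 3 * n))).trans (by simp)
      all_goals omega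
    have cE : E.coeff (3 * n) = 1 := by
      rw [hE, coeff_add, coeff_add, cF3, coeff_eq_zero_of_natDegree_lt (lt_of_le_of_lt d5 (by omega)),
        coeff_eq_zero_of_natDegree_lt (lt_of_le_of_lt d6 (by omega)), add_zero, add_zero]
    rw [← hE]
    have d4G : (4 * G).natDegree ≤ n - 1 := by
      have k1 : (4 : L[X]).natDegree ≤ 0 := by
        have : (4 : L[X]) = C 4 := rfl
        rw [this, natDegree_C]
      have := natDegree_mul_le_of_le k1 h3
      omega
    have c4G : (4 * G).coeff (n - 1) = 4 * 4 ^ i := by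
      have : (4 * G : L[X]) = C 4 * G := rfl
      rw [this, coeff_C_mul, h4]
    refine ⟨?_, ?_, ?_, ?_⟩
    · refine (natDegree_add_le_of_le (natDegree_sub_le_of_le (natDegree_sub_le_of_le dF4
        (d2.trans (?_ : _ ≤ 4 * n))) (d3.trans (?_ : _ ≤ 4 * n)))
        (d4.trans (?_ : _ ≤ 4 * n))).trans (by simp)
      all_goals omega
    · rw [coeff_add, coeff_sub, coeff_sub, cF4,
        coeff_eq_zero_of_natDegree_lt (lt_of_le_of_lt d2 (by omega)),
        coeff_eq_zero_of_natDegree_lt (lt_of_le_of_lt d3 (by omega)),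
        coeff_eq_zero_of_natDegree_lt (lt_of_le_of_lt d4 (by omega))]
      ring
    · have := natDegree_mul_le_of_le d4G dE
      omega
    · have e : 4 * n - 1 = (n - 1) + 3 * n := by omega
      rw [e, coeff_mul_add_eq_of_natDegree_le d4G dE, c4G, cE, mul_one, pow_succ']

/-- the polynomial of the points with proportional iterates -/
noncomputable def cross (a b : L) (i j : ℕ) : L[X] :=
  (itp a b i).1 * (itp a b j).2 - (itp a b i).2 * (itp a b j).1

lemma cross_eval (a b x : L) (i j : ℕ) :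
    (cross a b i j).eval x = 0 ↔ Par ((lat a b)^[i] (x, 1)) ((lat a b)^[j] (x, 1)) := by
  unfold cross Par
  rw [eval_itp, eval_itp]
  simp only [eval_sub, eval_mul]
  exact sub_eq_zero

lemma cross_deg (a b : L) (i j : ℕ) : (cross a b i j).natDegree ≤ 4 ^ i + 4 ^ j - 1 := by
  obtain ⟨h1, h2, h3, h4⟩ := itp_deg a b i
  obtain ⟨g1, g2, g3, g4⟩ := itp_deg a b j
  have hi : 1 ≤ 4 ^ i := Nat.one_le_pow _ _ (by norm_num)
  have hj : 1 ≤ 4 ^ j := Nat.one_le_pow _ _ (by norm_num)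
  have k1 := natDegree_mul_le_of_le h1 g3
  have k2 := natDegree_mul_le_of_le h3 g1
  unfold cross
  refine (natDegree_sub_le_of_le (k1.trans (?_ : _ ≤ 4 ^ i + 4 ^ j - 1))
    (k2.trans (?_ : _ ≤ 4 ^ i + 4 ^ j - 1))).trans (by simp)
  all_goals omega

lemma cross_ne [CharZero L] (a b : L) {i j : ℕ} (hij : i ≠ j) : cross a b i j ≠ 0 := by
  obtain ⟨h1, h2, h3, h4⟩ := itp_deg a b i
  obtain ⟨g1, g2, g3, g4⟩ := itp_deg a b j
  have hi : 1 ≤ 4 ^ i := Nat.one_le_pow _ _ (by norm_num)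
  have hj : 1 ≤ 4 ^ j := Nat.one_le_pow _ _ (by norm_num)
  intro h
  have h5 : (cross a b i j).coeff (4 ^ i + 4 ^ j - 1) = 0 := by rw [h, coeff_zero]
  unfold cross at h5
  rw [coeff_sub] at h5
  have e1 : 4 ^ i + 4 ^ j - 1 = 4 ^ i + (4 ^ j - 1) := by omega
  have e2 : 4 ^ i + 4 ^ j - 1 = (4 ^ i - 1) + 4 ^ j := by omega
  have h6 : ((itp a b i).1 * (itp a b j).2).coeff (4 ^ i + 4 ^ j - 1) = 4 ^ j := by
    rw [e1, coeff_mul_add_eq_of_natDegree_le h1 g3, h2, g4, one_mul]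
  have h7 : ((itp a b i).2 * (itp a b j).1).coeff (4 ^ i + 4 ^ j - 1) = 4 ^ i := by
    rw [e2, coeff_mul_add_eq_of_natDegree_le h3 g1, h4, g2, mul_one]
  rw [h6, h7, sub_eq_zero] at h5
  apply hij
  have h8 : (4 : ℕ) ^ j = 4 ^ i := by exact_mod_cast h5
  exact (Nat.pow_right_injective (by norm_num) h8).symm

/-- pigeonhole -/
lemma pair (n : ℕ) (hn : 0 < n) : ∃ i j : ℕ, j < i ∧ i ≤ n ∧ 2 ^ i ≡ 2 ^ j [MOD n] := by
  have h1 : (Finset.range n).card < (Finset.range (n + 1)).card := by simp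
  obtain ⟨x, hx, y, hy, hxy, h⟩ := Finset.exists_ne_map_eq_of_card_lt_of_maps_to h1
    (f := fun i => 2 ^ i % n) (by
      intro i _
      simp only [Finset.coe_range, Set.mem_Iio]
      exact Nat.mod_lt _ hn)
  rw [Finset.mem_range] at hx hy
  rcases lt_or_gt_of_ne hxy with h2 | h2
  · exact ⟨y, x, h2, by omega, h.symm⟩
  · exact ⟨x, y, h2, by omega, h⟩

/-- **The number of abscissas.** -/
theorem count [CharZero L] [DecidableEq L] {a b : L} (h : 4 * a ^ 3 + 27 * b ^ 2 ≠ 0) (N : ℕ)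
    (hT : ∀ D : L, D ≠ 0 → ∀ P : SPt (a * D ^ 2) (b * D ^ 3), IsOfFinAddOrder P →
      addOrderOf P ≤ N) (s : Finset L)
    (hs : ∀ x ∈ s, ∃ (D : L) (P : SPt (a * D ^ 2) (b * D ^ 3)), D ≠ 0 ∧ IsOfFinAddOrder P ∧
      Over D P (x, 1)) : s.card ≤ 4 ^ (N + 1) := by
  have hch : ∀ n : ℕ, ∃ p : ℕ × ℕ, 0 < n → p.2 < p.1 ∧ p.1 ≤ n ∧ 2 ^ p.1 ≡ 2 ^ p.2 [MOD n] := by
    intro n
    by_cases hn : 0 < n
    · obtain ⟨i, j, h1, h2, h3⟩ := pair n hn
      exact ⟨(i, j), fun _ => ⟨h1, h2, h3⟩⟩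
    · exact ⟨(0, 0), fun h => absurd h hn⟩
  choose p hp using hch
  have hsub : s ⊆ (Finset.Icc 1 N).biUnion (fun n => (cross a b (p n).1 (p n).2).roots.toFinset) := by
    intro x hx
    obtain ⟨D, P, hD, hP, hO⟩ := hs x hx
    have hn := hP.addOrderOf_pos
    obtain ⟨h1, h2, h3⟩ := hp (addOrderOf P) hn
    rw [Finset.mem_biUnion]
    refine ⟨addOrderOf P, Finset.mem_Icc.mpr ⟨hn, hT D hD P hP⟩, ?_⟩
    rw [Multiset.mem_toFinset, mem_roots (cross_ne a b h1.ne'), IsRoot.def, cross_eval]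
    refine par_of_eq (over_iter hD h P hO _) (over_iter hD h P hO _) (Or.inl ?_)
    exact nsmul_eq_nsmul_iff_modEq.mpr h3
  have hcard : ∀ n ∈ Finset.Icc 1 N, (cross a b (p n).1 (p n).2).roots.toFinset.card ≤ 2 * 4 ^ n := by
    intro n hn
    obtain ⟨h1, h2, -⟩ := hp n (Finset.mem_Icc.mp hn).1
    have k1 := Multiset.toFinset_card_le (cross a b (p n).1 (p n).2).roots
    have k2 := card_roots' (cross a b (p n).1 (p n).2)
    have k3 := cross_deg a b (p n).1 (p n).2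
    have k4 : 4 ^ (p n).1 ≤ 4 ^ n := Nat.pow_le_pow_right (by norm_num) h2
    have k5 : 4 ^ (p n).2 ≤ 4 ^ n := Nat.pow_le_pow_right (by norm_num) (by omega)
    omega
  have hsum : ∀ N : ℕ, ∑ n ∈ Finset.Icc 1 N, 2 * 4 ^ n ≤ 4 ^ (N + 1) := by
    intro N
    induction N with
    | zero => simp
    | succ N ih =>
      rw [Finset.sum_Icc_succ_top (by omega), pow_succ 4 (N + 1)]
      omega
  calc s.card ≤ _ := Finset.card_le_card hsub
    _ ≤ ∑ n ∈ Finset.Icc 1 N, (cross a b (p n).1 (p n).2).roots.toFinset.card :=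
      Finset.card_biUnion_le
    _ ≤ ∑ n ∈ Finset.Icc 1 N, 2 * 4 ^ n := Finset.sum_le_sum hcard
    _ ≤ 4 ^ (N + 1) := hsum N

end Pool.Agent.Q103.LTS
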