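import Mathlib
import Pool.Agent.Q103.LTS.Count
import Pool.Agent.TH910.LS.Chat

/-!
# Canonical heights for the Lattès maps; semiconjugate maps of all degrees
-/

set_option autoImplicit false

namespace Pool.Agent.Q103.LTS

open WeierstrassCurve Height Filter Topology
open Pool.Agent.TH942 Pool.Agent.TH910.LS

section maps

variable {L : Type} [Field L] [DecidableEq L]

/-- `φ` (in homogeneous coordinates) is a Lattès map `x(P) ↦ x(m P)` of `y² = x³ + a x + b` -/
def IsLattes (m : ℕ) (a b : L) (φ : L × L → L × L) : Prop :=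
  ∀ D : L, D ≠ 0 → ∀ (P : SPt (a * D ^ 2) (b * D ^ 3)) (v : L × L), Over D P v →
    Over D (m • P) (φ v)

/-- `v` is preperiodic for `φ` as a point of the projective line -/
def Preper (φ : L × L → L × L) (v : L × L) : Prop :=
  ∃ i j : ℕ, j < i ∧ (φ^[i] v).1 * (φ^[j] v).2 = (φ^[i] v).2 * (φ^[j] v).1

lemma isLattes_lat [CharZero L] {a b : L} (h : 4 * a ^ 3 + 27 * b ^ 2 ≠ 0) :
    IsLattes 2 a b (lat a b) := by
  intro D hD P v hv
  rw [two_nsmul]
  exact over_lat hD h P hv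

lemma IsLattes.iter {m : ℕ} {a b : L} {φ : L × L → L × L} (hφ : IsLattes m a b φ) {D : L}
    (hD : D ≠ 0) (P : SPt (a * D ^ 2) (b * D ^ 3)) {v : L × L} (hv : Over D P v) (i : ℕ) :
    Over D ((m ^ i : ℕ) • P) (φ^[i] v) := by
  induction i with
  | zero => simpa using hv
  | succ i ih =>
    rw [Function.iterate_succ_apply']
    have e : (m ^ (i + 1) : ℕ) • P = m • (m ^ i : ℕ) • P := by
      rw [← mul_nsmul', ← pow_succ']
    rw [e]
    exact hφ D hD _ _ ih

lemma tors_of_preper {m : ℕ} (hm : 2 ≤ m) {a b : L} {φ : L × L → L × L} (hφ : IsLattes m a b φ)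
    {D : L} (hD : D ≠ 0) (P : SPt (a * D ^ 2) (b * D ^ 3)) {v : L × L} (hv : Over D P v)
    (h : Preper φ v) : IsOfFinAddOrder P := by
  obtain ⟨i, j, hij, h⟩ := h
  refine tors_of_par hD (i := m ^ i) (j := m ^ j) ?_ (hφ.iter hD P hv i) (hφ.iter hD P hv j) h
  exact (Nat.pow_lt_pow_right (by omega) hij).ne'

/-- **Preperiodic points.** -/
theorem count_preper [CharZero L] {a b : L} (h : 4 * a ^ 3 + 27 * b ^ 2 ≠ 0) (N : ℕ)
    (hT : ∀ D : L, D ≠ 0 → ∀ P : SPt (a * D ^ 2) (b * D ^ 3), IsOfFinAddOrder P →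
      addOrderOf P ≤ N) {m : ℕ} (hm : 2 ≤ m) {φ : L × L → L × L} (hφ : IsLattes m a b φ)
    (s : Finset L) (hs : ∀ x ∈ s, Preper φ (x, 1)) : s.card ≤ 4 ^ (N + 1) := by
  refine count h N hT s ?_
  intro x hx
  obtain ⟨D, hD, P, hP⟩ := exists_over h x
  exact ⟨D, P, hD, tors_of_preper hm hφ hD P hP (hs x hx), hP⟩

/-- **Short orbits.** -/
theorem short_orbit [CharZero L] {a b : L} (h : 4 * a ^ 3 + 27 * b ^ 2 ≠ 0) (N : ℕ)
    (hT : ∀ D : L, D ≠ 0 → ∀ P : SPt (a * D ^ 2) (b * D ^ 3), IsOfFinAddOrder P →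
      addOrderOf P ≤ N) {m : ℕ} (hm : 2 ≤ m) {φ : L × L → L × L} (hφ : IsLattes m a b φ)
    (x : L) (hx : Preper φ (x, 1)) : ∃ i j : ℕ, j < i ∧ i ≤ N ∧
      (φ^[i] (x, 1)).1 * (φ^[j] (x, 1)).2 = (φ^[i] (x, 1)).2 * (φ^[j] (x, 1)).1 := by
  obtain ⟨D, hD, P, hP⟩ := exists_over h x
  have ht := tors_of_preper hm hφ hD P hP hx
  have hn := ht.addOrderOf_pos
  have hN := hT D hD P ht
  obtain ⟨i, j, hij, hi, he⟩ : ∃ i j : ℕ, j < i ∧ i ≤ addOrderOf P ∧
      m ^ i ≡ m ^ j [MOD addOrderOf P] := by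
    have h1 : (Finset.range (addOrderOf P)).card < (Finset.range (addOrderOf P + 1)).card := by
      simp
    obtain ⟨x, hx, y, hy, hxy, h⟩ := Finset.exists_ne_map_eq_of_card_lt_of_maps_to h1
      (f := fun i => m ^ i % addOrderOf P) (by
        intro i _
        simp only [Finset.coe_range, Set.mem_Iio]
        exact Nat.mod_lt _ hn)
    rw [Finset.mem_range] at hx hy
    rcases lt_or_gt_of_ne hxy with h2 | h2
    · exact ⟨y, x, h2, by omega, h.symm⟩
    · exact ⟨x, y, h2, by omega, h⟩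
  exact ⟨i, j, hij, hi.trans hN, par_of_eq (hφ.iter hD P hP i) (hφ.iter hD P hP j)
    (Or.inl (nsmul_eq_nsmul_iff_modEq.mpr he))⟩

/-- torsion points give preperiodic points -/
lemma preper_of_tors {m : ℕ} {a b : L} {φ : L × L → L × L} (hφ : IsLattes m a b φ)
    {D : L} (hD : D ≠ 0) (P : SPt (a * D ^ 2) (b * D ^ 3)) {v : L × L} (hv : Over D P v)
    (h : IsOfFinAddOrder P) : Preper φ v := by
  have hn := h.addOrderOf_pos
  obtain ⟨i, j, hij, he⟩ : ∃ i j : ℕ, j < i ∧ m ^ i ≡ m ^ j [MOD addOrderOf P] := by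
    have h1 : (Finset.range (addOrderOf P)).card < (Finset.range (addOrderOf P + 1)).card := by
      simp
    obtain ⟨x, hx, y, hy, hxy, h⟩ := Finset.exists_ne_map_eq_of_card_lt_of_maps_to h1
      (f := fun i => m ^ i % addOrderOf P) (by
        intro i _
        simp only [Finset.coe_range, Set.mem_Iio]
        exact Nat.mod_lt _ hn)
    rcases lt_or_gt_of_ne hxy with h2 | h2
    · exact ⟨y, x, h2, h.symm⟩
    · exact ⟨x, y, h2, h⟩
  refine ⟨i, j, hij, ?_⟩
  exact par_of_eq (hφ.iter hD P hv i) (hφ.iter hD P hv j)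
    (Or.inl (nsmul_eq_nsmul_iff_modEq.mpr he))

end maps

section heights

variable {L : Type} [Field L] [NumberField L]

/-- the heights of `v` and `P` -/
lemma ht_over {a b D : L} (hD : D ≠ 0) (P : SPt (a * D ^ 2) (b * D ^ 3)) {v : L × L}
    (hv : Over D P v) : |logHeight ![v.1, v.2] - sht P| ≤ logHeight₁ D := by
  obtain ⟨c, hc, rfl⟩ := hv
  have e : ![(c * P.xRep 0, c * D * P.xRep 1).1, (c * P.xRep 0, c * D * P.xRep 1).2] =
      c • ![P.xRep 0, D * P.xRep 1] := by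
    ext i
    fin_cases i
    · simp
    · simp [mul_assoc]
  rw [e, logHeight_smul_eq_logHeight _ hc]
  unfold sht
  match P with
  | 0 =>
    rw [Affine.Point.xRep_zero]
    simp only [Matrix.cons_val_zero, Matrix.cons_val_one, mul_zero, sub_self, abs_zero]
    exact zero_le_logHeight₁ D
  | .some x y hn =>
    rw [Affine.Point.xRep_some]
    simp only [Matrix.cons_val_zero, Matrix.cons_val_one, mul_one]
    have e2 : ![x, D] = D • ![x / D, 1] := by
      ext i
      fin_cases i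
      · simp [mul_div_cancel₀ _ hD]
      · simp
    rw [e2, logHeight_smul_eq_logHeight _ hD, ← logHeight₁_eq_logHeight, ← logHeight₁_eq_logHeight]
    have h1 := logHeight₁_mul_le x D⁻¹
    have h2 := logHeight₁_mul_le (x / D) D
    rw [logHeight₁_inv, ← div_eq_mul_inv] at h1
    rw [div_mul_cancel₀ _ hD] at h2
    rw [abs_le]
    constructor <;> linarith

variable [DecidableEq L]

/-- **The canonical height.** -/
theorem tendsto_lat {a b D : L} (hD : D ≠ 0) (h : 4 * a ^ 3 + 27 * b ^ 2 ≠ 0)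
    (P : SPt (a * D ^ 2) (b * D ^ 3)) {v : L × L} (hv : Over D P v) :
    Tendsto (fun k : ℕ => logHeight ![((lat a b)^[k] v).1, ((lat a b)^[k] v).2] / 4 ^ k) atTop
      (𝓝 (chat P)) := by
  have h1 := (chat_spec (twist_disc hD h)).1 P
  have h2 : Tendsto (fun k : ℕ => logHeight₁ D / 4 ^ k) atTop (𝓝 0) := by
    have h3 : Tendsto (fun k : ℕ => logHeight₁ D * (1 / 4 : ℝ) ^ k) atTop (𝓝 (logHeight₁ D * 0)) :=
      (tendsto_pow_atTop_nhds_zero_of_lt_one (by norm_num) (by norm_num)).const_mul _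
    rw [mul_zero] at h3
    refine h3.congr fun k => ?_
    rw [one_div, inv_pow, div_eq_mul_inv]
  have h4 : Tendsto (fun k : ℕ => logHeight ![((lat a b)^[k] v).1, ((lat a b)^[k] v).2] / 4 ^ k -
      sht ((2 ^ k : ℕ) • P) / 4 ^ k) atTop (𝓝 0) := by
    refine squeeze_zero_norm (fun k => ?_) h2
    rw [← sub_div, norm_div, Real.norm_eq_abs, Real.norm_eq_abs,
      abs_of_pos (show (0 : ℝ) < 4 ^ k by positivity)]
    apply div_le_div_of_nonneg_right _ (by positivity)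
    exact ht_over hD _ (over_iter hD h P hv k)
  have h5 := h4.add h1
  rw [zero_add] at h5
  refine h5.congr fun k => ?_
  ring

omit [NumberField L] [DecidableEq L] in
lemma Over.smul {a b D : L} {P : SPt (a * D ^ 2) (b * D ^ 3)} {v : L × L} (hv : Over D P v)
    {c : L} (hc : c ≠ 0) : Over D P (c * v.1, c * v.2) := by
  obtain ⟨c', hc', rfl⟩ := hv
  refine ⟨c * c', mul_ne_zero hc hc', ?_⟩
  ext
  · simp only; ring
  · simp only; ring

omit [NumberField L] [DecidableEq L] in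
/-- every point of the line over `L` is below a point of a twist -/
lemma exists_over' [CharZero L] {a b : L} (h : 4 * a ^ 3 + 27 * b ^ 2 ≠ 0) (v : L × L)
    (hv : v ≠ 0) : ∃ (D : L) (_ : D ≠ 0) (P : SPt (a * D ^ 2) (b * D ^ 3)), Over D P v := by
  by_cases h2 : v.2 = 0
  · have h1 : v.1 ≠ 0 := fun h1 => hv (Prod.ext h1 h2)
    refine ⟨1, one_ne_zero, 0, v.1, h1, ?_⟩
    rw [Affine.Point.xRep_zero]
    ext
    · simp
    · simp [h2]
  · obtain ⟨D, hD, P, hP⟩ := exists_over h (v.1 / v.2)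
    refine ⟨D, hD, P, ?_⟩
    have h3 := hP.smul h2
    simp only [mul_one] at h3
    rwa [mul_div_cancel₀ _ h2] at h3

/-- **The canonical height for all Lattès maps.** -/
theorem tendsto_lattes {m : ℕ} (hm : 2 ≤ m) {a b D : L} (hD : D ≠ 0)
    (h : 4 * a ^ 3 + 27 * b ^ 2 ≠ 0) {φ : L × L → L × L} (hφ : IsLattes m a b φ)
    (P : SPt (a * D ^ 2) (b * D ^ 3)) {v : L × L} (hv : Over D P v) :
    Tendsto (fun k : ℕ => logHeight ![(φ^[k] v).1, (φ^[k] v).2] / ((m : ℝ) ^ 2) ^ k) atTop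
      (𝓝 (chat P)) := by
  obtain ⟨-, -, h1, C, hC⟩ := chat_spec (twist_disc hD h)
  have hm1 : (1 : ℝ) < (m : ℝ) ^ 2 := by
    have : (2 : ℝ) ≤ m := by exact_mod_cast hm
    nlinarith
  have hm0 : (0 : ℝ) < (m : ℝ) ^ 2 := by linarith
  have h2 : Tendsto (fun k : ℕ => (logHeight₁ D + C) / ((m : ℝ) ^ 2) ^ k) atTop (𝓝 0) := by
    have h3 : Tendsto (fun k : ℕ => (logHeight₁ D + C) * (((m : ℝ) ^ 2)⁻¹) ^ k) atTop
        (𝓝 ((logHeight₁ D + C) * 0)) :=
      (tendsto_pow_atTop_nhds_zero_of_lt_one (by positivity)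
        (inv_lt_one_of_one_lt₀ hm1)).const_mul _
    rw [mul_zero] at h3
    refine h3.congr fun k => ?_
    rw [inv_pow, div_eq_mul_inv]
  rw [← tendsto_sub_nhds_zero_iff]
  refine squeeze_zero_norm (fun k => ?_) h2
  have e1 : chat ((m ^ k : ℕ) • P) = ((m : ℝ) ^ 2) ^ k * chat P := by
    rw [q_nsmul h1]
    push_cast
    rw [← pow_mul, ← pow_mul, mul_comm k 2]
  have h4 : (0 : ℝ) < ((m : ℝ) ^ 2) ^ k := by positivity
  have e2 : logHeight ![(φ^[k] v).1, (φ^[k] v).2] / ((m : ℝ) ^ 2) ^ k - chat P =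
      (logHeight ![(φ^[k] v).1, (φ^[k] v).2] - chat ((m ^ k : ℕ) • P)) / ((m : ℝ) ^ 2) ^ k := by
    rw [e1, sub_div, mul_div_cancel_left₀ _ h4.ne']
  rw [e2, norm_div, Real.norm_eq_abs, Real.norm_eq_abs, abs_of_pos h4]
  apply div_le_div_of_nonneg_right _ h4.le
  have h5 := ht_over hD _ (hφ.iter hD P hv k)
  have h6 := hC ((m ^ k : ℕ) • P)
  rw [abs_le] at h5 h6 ⊢
  constructor <;> linarith

/-- the canonical height of a point as the height of a point of the first power -/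
lemma chatM_one {a b : L} (h : 4 * a ^ 3 + 27 * b ^ 2 ≠ 0) (P : SPt a b) :
    chatM (1 : Matrix (Fin 1) (Fin 1) ℤ) (fun _ => P) = chat P := by
  have h1 := (chat_spec h).2.2.1 P P
  have h2 : chat (0 : SPt a b) = 0 := by
    have h3 := (chat_spec h).2.2.1 (0 : SPt a b) 0
    rw [add_zero, sub_zero] at h3
    linarith
  rw [sub_self, h2] at h1
  unfold chatM
  simp
  linarith

end heights

end Pool.Agent.Q103.LTS
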